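import Pool.Agent.Work.MP_be9894_co.H2Main

set_option autoImplicit false

namespace Pool.Agent.Work.MP_be9894_co.Parked.HeightTwo

/-- Every oriented tree without a directed path of length two (every vertex is a source or a sink)
is determined among all oriented trees by its strict order quasisymmetric function. -/
theorem result :
  ∀ (α β : Type) [Fintype α] [PartialOrder α] [Fintype β] [PartialOrder β],
    (SimpleGraph.fromRel (fun a b : α => a ⋖ b)).IsTree →
    (SimpleGraph.fromRel (fun a b : β => a ⋖ b)).IsTree →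
    (∀ a b c : α, a < b → ¬ b < c) →
    (∀ m : ℕ →₀ ℕ,
      Set.ncard {f : α → ℕ | StrictMono f ∧
          ∀ i : ℕ, (Finset.univ.filter (fun a => f a = i)).card = m i} =
      Set.ncard {g : β → ℕ | StrictMono g ∧
          ∀ i : ℕ, (Finset.univ.filter (fun b => g b = i)).card = m i}) →
    Nonempty (α ≃o β) := by
  intro α β _ _ _ _ hα hβ H Q
  have key : ∀ (γ : Type) [PartialOrder γ],
      SimpleGraph.fromRel (fun a b : γ => a ⋖ b) = SimpleGraph.hasse γ := by
    intro γ _
    ext a b
    rw [SimpleGraph.fromRel_adj, SimpleGraph.hasse_adj]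
    exact ⟨fun h => h.2, fun h => ⟨h.elim (fun h => h.ne) (fun h => h.ne'), h⟩⟩
  rw [key] at hα hβ
  exact Pool.Agent.Work.MP_be9894_co.H2.main hα hβ H Q

end Pool.Agent.Work.MP_be9894_co.Parked.HeightTwo
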