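import Pool.Agent.Work.MP_be9894_co.Main

set_option autoImplicit false

namespace Pool.Agent.Work.MP_be9894_co.Parked.Paths

/-- Every oriented path (fence, zigzag poset) is determined among all oriented trees by its strict
order quasisymmetric function. -/
theorem result :
  ∀ (α β : Type) [Fintype α] [PartialOrder α] [Fintype β] [PartialOrder β] (n : ℕ),
    Nonempty (SimpleGraph.hasse α ≃g SimpleGraph.pathGraph (n + 1)) →
    (SimpleGraph.hasse β).IsTree →
    (∀ m : ℕ →₀ ℕ,
      Set.ncard {f : α → ℕ | StrictMono f ∧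
          ∀ i : ℕ, (Finset.univ.filter (fun a => f a = i)).card = m i} =
      Set.ncard {g : β → ℕ | StrictMono g ∧
          ∀ i : ℕ, (Finset.univ.filter (fun b => g b = i)).card = m i}) →
    Nonempty (α ≃o β) := by
  intro α β _ _ _ _ n ⟨φ⟩ hT Q
  exact Pool.Agent.Work.MP_be9894_co.main n φ hT Q

end Pool.Agent.Work.MP_be9894_co.Parked.Paths
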